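import Pool.Agent.W516.KCM.Defs2

/-! Project KCM: a positive vector in the eigenspace of a real place. -/

set_option autoImplicit false

namespace Pool.Agent.W585.KCM

open Module TensorProduct Polynomial
open Pool.Agent.W516.KCM
open scoped IntermediateField

section A

variable {k E : Type} [Field k] [CharZero k] [Field E] [Algebra k E] [FiniteDimensional k E]

/-- fixed field of `c` -/
def Fx (c : E →ₐ[k] E) : IntermediateField k E where
  carrier := {e | c e = e}
  mul_mem' := by
    intro a b ha hb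
    simp only [Set.mem_ofPred_eq] at *
    rw [map_mul, ha, hb]
  add_mem' := by
    intro a b ha hb
    simp only [Set.mem_ofPred_eq] at *
    rw [map_add, ha, hb]
  algebraMap_mem' := fun r => c.commutes r
  inv_mem' := by
    intro a ha
    simp only [Set.mem_ofPred_eq] at *
    rw [map_inv₀, ha]

theorem prim (c : E →ₐ[k] E) :
    ∃ θ : E, c θ = θ ∧ ∀ e, c e = e → ∃ p : k[X], e = aeval θ p := by
  obtain ⟨α, hα⟩ := Field.exists_primitive_element k (Fx c)
  refine ⟨(α : E), α.2, fun e he => ?_⟩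
  have h1 : (⟨e, he⟩ : Fx c) ∈ k⟮α⟯ := by
    rw [hα]
    exact IntermediateField.mem_top
  have h2 : (⟨e, he⟩ : Fx c) ∈ (k⟮α⟯).toSubalgebra := h1
  rw [IntermediateField.adjoin_simple_toSubalgebra_of_isAlgebraic
    (Algebra.IsAlgebraic.isAlgebraic α), Algebra.adjoin_singleton_eq_range_aeval] at h2
  obtain ⟨p, hp⟩ := h2
  refine ⟨p, ?_⟩
  have h3 : (aeval α p : Fx c) = ⟨e, he⟩ := hp
  have h4 := congrArg (Fx c).val h3
  rw [← Polynomial.aeval_algHom_apply] at h4
  exact h4.symm

variable [Algebra k ℝ] [Algebra k ℂ] [IsScalarTower k ℝ ℂ]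

theorem exj (θ : E) (z : ℂ) (hz : aeval z (minpoly k θ) = 0) : ∃ j : E →ₐ[k] ℂ, j θ = z :=
  IntermediateField.exists_algHom_of_splits_of_aeval (F := k) (E := E) (K := ℂ) (x := θ) (y := z)
    (fun s => ⟨Algebra.IsIntegral.isIntegral s, IsAlgClosed.splits _⟩) hz

theorem real_root (c : E →ₐ[k] E)
    (hc : ∀ (j : E →ₐ[k] ℂ) (e : E), j (c e) = (starRingEnd ℂ) (j e)) {θ : E} (hθ : c θ = θ)
    (z : ℂ) (hz : aeval z (minpoly k θ) = 0) : (z.re : ℂ) = z := by
  obtain ⟨j, hj⟩ := exj θ z hz
  have h := hc j θ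
  rw [hθ, hj] at h
  exact Complex.conj_eq_iff_re.mp h.symm

theorem spl (c : E →ₐ[k] E)
    (hc : ∀ (j : E →ₐ[k] ℂ) (e : E), j (c e) = (starRingEnd ℂ) (j e)) {θ : E} (hθ : c θ = θ) :
    ((minpoly k θ).map (algebraMap k ℝ)).Splits := by
  apply Polynomial.Splits.of_splits_map (algebraMap ℝ ℂ)
  · exact IsAlgClosed.splits _
  · intro a ha
    rw [Polynomial.map_map, ← IsScalarTower.algebraMap_eq k ℝ ℂ] at ha
    have h1 : aeval a (minpoly k θ) = 0 := by
      have := (Polynomial.mem_roots'.mp ha).2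
      rw [Polynomial.IsRoot.def, Polynomial.eval_map] at this
      exact this
    exact ⟨a.re, real_root c hc hθ a h1⟩

end A

theorem T_PLACE : S_PLACE := by
  intro k E T _ _ _ _ _ _ _ _ _ _ _ _ _ c b hcc hcj hb hex
  obtain ⟨v, hv⟩ := hex
  obtain ⟨θ, hθ, hgen⟩ := prim c
  have hspl := spl c hcj hθ
  obtain ⟨g, hg⟩ : ∃ g : ℝ[X], g = (minpoly k θ).map (algebraMap k ℝ) := ⟨_, rfl⟩
  rw [← hg] at hspl
  have hint : IsIntegral k θ := Algebra.IsIntegral.isIntegral θ
  have hmon : g.Monic := by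
    rw [hg]
    exact (minpoly.monic hint).map _
  have hsep : g.Separable := by
    rw [hg]
    have h1 : (minpoly k θ).Separable := Algebra.IsSeparable.isSeparable k θ
    exact h1.map
  classical
  obtain ⟨R, hR⟩ : ∃ R : Finset ℝ, R = g.roots.toFinset := ⟨_, rfl⟩
  have hprod : Lagrange.nodal R id = g := by
    have h1 := hspl.eq_prod_roots_of_monic hmon
    have h2 : R.val = g.roots := by
      rw [hR, Multiset.toFinset_val]
      exact Multiset.dedup_eq_self.mpr (nodup_roots hsep)
    rw [Lagrange.nodal]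
    conv_rhs => rw [h1]
    rw [← h2]
    rfl
  have hne : R.Nonempty := by
    rw [Finset.nonempty_iff_ne_empty]
    intro h0
    rw [h0, Lagrange.nodal_empty] at hprod
    have h1 : g.natDegree = (minpoly k θ).natDegree := by
      rw [hg]
      exact (minpoly.monic hint).natDegree_map _
    have h2 := minpoly.natDegree_pos hint
    rw [← hprod, natDegree_one] at h1
    omega
  obtain ⟨Φ, hΦ⟩ : ∃ Φ : E →ₐ[k] Module.End ℝ (ℝ ⊗[k] T), ∀ e x,
      Φ e x = (Algebra.lsmul k k T e : Module.End k T).baseChange ℝ x :=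
    ⟨(Module.End.baseChangeHom k ℝ T).comp (Algebra.lsmul k k T : E →ₐ[k] Module.End k T),
      fun e x => rfl⟩
  obtain ⟨A, hA⟩ : ∃ A : Module.End ℝ (ℝ ⊗[k] T), A = Φ θ := ⟨_, rfl⟩
  have hAt : ∀ (r : ℝ) (m : T), A (r ⊗ₜ m) = r ⊗ₜ (θ • m) := by
    intro r m
    rw [hA, hΦ, LinearMap.baseChange_tmul]
    rfl
  have hAg : aeval A g = 0 := by
    rw [hg, Polynomial.aeval_map_algebraMap, hA, Polynomial.aeval_algHom_apply, minpoly.aeval,
      map_zero]
  have hsym : ∀ x y, (LinearMap.BilinForm.baseChange ℝ b) (A x) y =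
      (LinearMap.BilinForm.baseChange ℝ b) x (A y) := by
    intro x y
    induction x using TensorProduct.induction_on with
    | zero => simp
    | tmul r m =>
      induction y using TensorProduct.induction_on with
      | zero => simp
      | tmul s n =>
        rw [hAt, hAt, LinearMap.BilinForm.baseChange_tmul, LinearMap.BilinForm.baseChange_tmul,
          hb θ m n, hθ]
      | add y1 y2 h1 h2 => rw [map_add, map_add A, map_add, h1, h2]
    | add x1 x2 h1 h2 =>
      rw [map_add, map_add, map_add, LinearMap.add_apply, LinearMap.add_apply, h1, h2]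
  -- components
  obtain ⟨w, hw⟩ : ∃ w : ℝ → ℝ ⊗[k] T, ∀ r, w r = aeval A (Lagrange.basis R id r) v :=
    ⟨_, fun _ => rfl⟩
  have hsum : ∑ r ∈ R, w r = v := by
    have h1 : ∑ r ∈ R, Lagrange.basis R (id : ℝ → ℝ) r = 1 :=
      Lagrange.sum_basis (Set.injOn_id _) hne
    have h2 := congrArg (fun p => aeval A p v) h1
    simp only [map_sum, map_one, LinearMap.sum_apply, Module.End.one_apply] at h2
    rw [← h2]
    exact Finset.sum_congr rfl fun r _ => hw r
  have heig : ∀ r ∈ R, A (w r) = r • w r := by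
    intro r hr
    have h1 : (X - C r) * Lagrange.basis R (id : ℝ → ℝ) r = C (Lagrange.nodalWeight R id r) * g := by
      rw [Lagrange.basis_eq_prod_sub_inv_mul_nodal_div hr, ← Lagrange.nodal_erase_eq_nodal_div hr,
        ← hprod, Lagrange.nodal_eq_mul_nodal_erase hr]
      simp only [id]
      ring
    have h2 := congrArg (fun p => aeval A p v) h1
    simp only [map_mul, hAg, mul_zero, LinearMap.zero_apply] at h2
    rw [Module.End.mul_apply, ← hw] at h2
    simp only [map_sub, aeval_X, aeval_C, LinearMap.sub_apply, Module.algebraMap_end_apply] at h2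
    exact sub_eq_zero.mp h2
  have horth : ∀ r ∈ R, ∀ s ∈ R, r ≠ s →
      (LinearMap.BilinForm.baseChange ℝ b) (w r) (w s) = 0 := by
    intro r hr s hs hrs
    have h1 := hsym (w r) (w s)
    rw [heig r hr, heig s hs, map_smul, map_smul, LinearMap.smul_apply, smul_eq_mul,
      smul_eq_mul] at h1
    have h2 : (r - s) * (LinearMap.BilinForm.baseChange ℝ b) (w r) (w s) = 0 := by
      rw [sub_mul, h1, sub_self]
    rcases mul_eq_zero.mp h2 with h3 | h3
    · exact absurd (sub_eq_zero.mp h3) hrs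
    · exact h3
  have hpos : ∃ r ∈ R, 0 < (LinearMap.BilinForm.baseChange ℝ b) (w r) (w r) := by
    by_contra hcon
    push Not at hcon
    have h1 : (LinearMap.BilinForm.baseChange ℝ b) v v =
        ∑ r ∈ R, (LinearMap.BilinForm.baseChange ℝ b) (w r) (w r) := by
      conv_lhs => rw [← hsum]
      rw [map_sum]
      apply Finset.sum_congr rfl
      intro r hr
      rw [map_sum, LinearMap.sum_apply]
      apply Finset.sum_eq_single_of_mem r hr
      intro s hs hsr
      exact horth s hs r hr hsr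
    rw [h1] at hv
    exact absurd (Finset.sum_nonpos hcon) (not_le.mpr hv)
  obtain ⟨r, hr, hrpos⟩ := hpos
  have hroot : aeval (r : ℂ) (minpoly k θ) = 0 := by
    have h1 : g.IsRoot r := by
      rw [hR, Multiset.mem_toFinset] at hr
      exact (Polynomial.mem_roots'.mp hr).2
    have h2 : aeval r (minpoly k θ) = 0 := by
      rw [hg, Polynomial.IsRoot.def, Polynomial.eval_map] at h1
      exact h1
    have h3 := Polynomial.aeval_algebraMap_apply ℂ r (minpoly k θ)
    rw [h2, map_zero] at h3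
    exact h3
  obtain ⟨j, hj⟩ := exj θ (r : ℂ) hroot
  refine ⟨j, w r, fun e he => ?_, hrpos⟩
  obtain ⟨p, hp⟩ := hgen e he
  have hw0 : w r ≠ 0 := by
    intro h0
    rw [h0, map_zero] at hrpos
    exact lt_irrefl _ hrpos
  have hev : A.HasEigenvector r (w r) := ⟨Module.End.mem_eigenspace_iff.mpr (heig r hr), hw0⟩
  have h1 := Module.End.aeval_apply_of_hasEigenvector (p := p.map (algebraMap k ℝ)) hev
  rw [Polynomial.aeval_map_algebraMap, hA, Polynomial.aeval_algHom_apply, ← hp, hΦ,
    Polynomial.eval_map] at h1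
  have h2 : (j e).re = Polynomial.eval₂ (algebraMap k ℝ) r p := by
    rw [hp, ← Polynomial.aeval_algHom_apply, hj]
    have h3 := Polynomial.aeval_algebraMap_apply ℂ r p
    have h4 : (aeval (r : ℂ) p : ℂ) = ((aeval r p : ℝ) : ℂ) := h3
    rw [h4, Complex.ofReal_re]
    rfl
  rw [h2]
  exact h1

end Pool.Agent.W585.KCM
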